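import Mathlib

set_option autoImplicit false

/-!
Counting words that avoid the reducible patterns (for the growth rate of braid groups).
Words are stored in reverse order: the head of the list is the last letter.
-/

namespace Pool.Agent.H966R3.BG

open Finset

/-- a letter: index and sign -/
abbrev Lt := ℕ × Bool

/-- a block: sign of the letter, and whether it is repeated -/
abbrev Blk := Bool × Bool

/-- the blocks of the final descending run, from the current level upwards -/
def run : List Lt → List Blk
  | [] => []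
  | [x] => [(x.2, false)]
  | x :: y :: l =>
    if x.1 = y.1 then (x.2, true) :: (run (y :: l)).tail
    else if x.1 + 1 = y.1 then (x.2, false) :: run (y :: l)
    else [(x.2, false)]

def sgl (b0 b1 : Blk) : Bool := (b0.1 == b1.1) && !b0.2

def jumpOk : List Blk → ℕ → Bool → Bool
  | b0 :: b1 :: _, 1, c => (c == b1.1) && !(sgl b0 b1)
  | _ :: b1 :: rest, (i + 2), c => jumpOk (b1 :: rest) (i + 1) c
  | _, _, _ => true

def ok : List Lt → Lt → Bool
  | [], _ => true
  | x :: l, y =>
    if y.1 + 2 ≤ x.1 then false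
    else if y.1 + 1 = x.1 then true
    else if y.1 = x.1 then (y.2 == x.2)
    else jumpOk (run (x :: l)) (y.1 - x.1) y.2

noncomputable def t2 (b0 b1 : Blk) : ℝ := if sgl b0 b1 = true then 50 / 77 else 25 / 77

noncomputable def t1 (b0 b1 : Blk) : ℝ := if sgl b0 b1 = true then 6975 / 11704 else 25 / 77

noncomputable def S : List Blk → ℝ
  | b0 :: b1 :: rest => (1 / 2) * (t2 b0 b1 + S (b1 :: rest))
  | _ => 0

noncomputable def v : List Blk → ℝ
  | b0 :: b1 :: rest => 1 - (1 / 2) * (t1 b0 b1 + S (b1 :: rest))
  | _ => 1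

noncomputable def W : List Lt → ℝ
  | [] => 1
  | x :: l => (1 / 2) ^ x.1 * v (run (x :: l))

theorem run_ne (x : Lt) (l : List Lt) : ∃ b rest, run (x :: l) = b :: rest ∧ b.1 = x.2 := by
  cases l with
  | nil => exact ⟨_, _, rfl, rfl⟩
  | cons y l =>
    rw [run]
    split_ifs
    · exact ⟨_, _, rfl, rfl⟩
    · exact ⟨_, _, rfl, rfl⟩
    · exact ⟨_, _, rfl, rfl⟩

theorem t2_le (b0 b1 : Blk) : 0 ≤ t2 b0 b1 ∧ t2 b0 b1 ≤ 50 / 77 := by
  unfold t2; split_ifs <;> norm_num

theorem t1_le (b0 b1 : Blk) : 0 ≤ t1 b0 b1 ∧ t1 b0 b1 ≤ 6975 / 11704 := by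
  unfold t1; split_ifs <;> norm_num

theorem S_le : ∀ bs : List Blk, 0 ≤ S bs ∧ S bs ≤ 50 / 77
  | [] => by simp [S]; norm_num
  | [b] => by simp [S]; norm_num
  | b0 :: b1 :: rest => by
    have h := S_le (b1 :: rest)
    have h2 := t2_le b0 b1
    rw [S]
    constructor <;> linarith [h.1, h.2, h2.1, h2.2]

theorem v_ge : ∀ bs : List Blk, 1 / 4 ≤ v bs ∧ v bs ≤ 1
  | [] => by simp [v]; norm_num
  | [b] => by simp [v]; norm_num
  | b0 :: b1 :: rest => by
    have h := S_le (b1 :: rest)
    have h2 := t1_le b0 b1
    rw [v]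
    constructor <;> linarith [h.1, h.2, h2.1, h2.2]

noncomputable def cnt (bs : List Blk) (i : ℕ) : ℝ :=
  (if jumpOk bs i true = true then 1 else 0) + (if jumpOk bs i false = true then 1 else 0)

theorem cnt_nonneg (bs : List Blk) (i : ℕ) : 0 ≤ cnt bs i := by
  unfold cnt; split_ifs <;> norm_num

theorem cnt_one (b0 b1 : Blk) (rest : List Blk) :
    cnt (b0 :: b1 :: rest) 1 = 2 - (77 / 25) * t2 b0 b1 := by
  unfold cnt t2
  rw [jumpOk, jumpOk]
  rcases hb : b1.1 with _ | _ <;> rcases hs : sgl b0 b1 with _ | _ <;> simp <;> norm_num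

theorem cnt_succ (b0 b1 : Blk) (rest : List Blk) (i : ℕ) :
    cnt (b0 :: b1 :: rest) (i + 2) = cnt (b1 :: rest) (i + 1) := by
  unfold cnt
  rw [jumpOk, jumpOk]

theorem cnt_le (bs : List Blk) (i : ℕ) : cnt bs i ≤ 2 := by
  unfold cnt; split_ifs <;> norm_num

theorem jump_sum : ∀ (bs : List Blk) (N : ℕ),
    ∑ i ∈ range N, (1 / 2 : ℝ) ^ (i + 1) * cnt bs (i + 1) ≤ 2 - (77 / 25) * S bs := by
  have key : ∀ (bs : List Blk), S bs = 0 → ∀ N : ℕ,
      ∑ i ∈ range N, (1 / 2 : ℝ) ^ (i + 1) * cnt bs (i + 1) ≤ 2 - (77 / 25) * S bs := by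
    intro bs hS N
    rw [hS]
    have h1 : ∑ i ∈ range N, (1 / 2 : ℝ) ^ (i + 1) * cnt bs (i + 1) ≤
        ∑ i ∈ range N, (1 / 2 : ℝ) ^ i := by
      refine Finset.sum_le_sum fun i _ => ?_
      have := cnt_le bs (i + 1)
      have hp : (0 : ℝ) < (1 / 2 : ℝ) ^ i := by positivity
      rw [pow_succ]
      nlinarith
    have h2 : ∑ i ∈ range N, (1 / 2 : ℝ) ^ i ≤ 2 := by
      rw [geom_sum_eq (by norm_num)]
      have : (0 : ℝ) < (1 / 2 : ℝ) ^ N := by positivity
      rw [div_le_iff_of_neg (by norm_num)]
      linarith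
    linarith
  intro bs
  induction bs with
  | nil => exact key [] rfl
  | cons b0 tl ih =>
    cases tl with
    | nil => exact key [b0] rfl
    | cons b1 rest =>
      intro N
      cases N with
      | zero =>
        have := (S_le (b0 :: b1 :: rest)).2
        simp only [Finset.range_zero, Finset.sum_empty]
        linarith
      | succ N =>
        rw [Finset.sum_range_succ', Nat.zero_add, cnt_one, S]
        have h := ih N
        have h2 : ∑ k ∈ range N, (1 / 2 : ℝ) ^ (k + 1 + 1) * cnt (b0 :: b1 :: rest) (k + 1 + 1) =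
            (1 / 2) * ∑ i ∈ range N, (1 / 2 : ℝ) ^ (i + 1) * cnt (b1 :: rest) (i + 1) := by
          rw [Finset.mul_sum]
          refine Finset.sum_congr rfl fun i _ => ?_
          rw [show i + 1 + 1 = i + 2 from rfl, cnt_succ]
          ring
        rw [h2]
        linarith

/-- the sum over the two signs -/
theorem down_sum (b0 : Blk) (rest : List Blk) :
    v ((true, false) :: b0 :: rest) + v ((false, false) :: b0 :: rest) =
      2 - (1 / 2) * (10775 / 11704 + 2 * S (b0 :: rest)) := by
  rw [v, v]
  unfold t1 sgl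
  rcases hb : b0.1 with _ | _ <;> simp <;> ring

theorem step (M : ℕ) (x : Lt) (l : List Lt) :
    ∑ j ∈ range M, ∑ c : Bool, (if ok (x :: l) (j, c) = true then W ((j, c) :: x :: l) else 0) ≤
      (152 / 25) * W (x :: l) := by
  obtain ⟨b0, rest, hrun, hb0⟩ := run_ne x l
  set m := x.1 with hm
  have hz : (0 : ℝ) < (1 / 2 : ℝ) ^ m := by positivity
  -- the three contributions
  set D : ℝ := (1 / 2 : ℝ) ^ m * (4 - (10775 / 11704 + 2 * S (b0 :: rest))) with hD
  set E : ℝ := (1 / 2 : ℝ) ^ m * v ((x.2, true) :: rest) with hE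
  have hD0 : 0 ≤ D := by
    rw [hD]
    have := (S_le (b0 :: rest)).2
    apply mul_nonneg hz.le
    linarith
  have hE0 : 0 ≤ E := by
    rw [hE]
    have := (v_ge ((x.2, true) :: rest)).1
    apply mul_nonneg hz.le
    linarith
  have hpt : ∀ j ∈ range M, ∑ c : Bool,
      (if ok (x :: l) (j, c) = true then W ((j, c) :: x :: l) else 0) ≤
      (if j = m - 1 then D else 0) + (if j = m then E else 0) +
        (if m < j then (1 / 2 : ℝ) ^ j * cnt (b0 :: rest) (j - m) else 0) := by
    intro j _
    have hJ0 : 0 ≤ (if m < j then (1 / 2 : ℝ) ^ j * cnt (b0 :: rest) (j - m) else 0) := by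
      split_ifs
      · exact mul_nonneg (by positivity) (cnt_nonneg _ _)
      · exact le_refl _
    have hE1 : 0 ≤ (if j = m then E else 0) := by split_ifs <;> simp [hE0]
    have hD1 : 0 ≤ (if j = m - 1 then D else 0) := by split_ifs <;> simp [hD0]
    rw [Fintype.sum_bool]
    by_cases h1 : j + 2 ≤ m
    · have : ∀ c, ok (x :: l) (j, c) = false := by
        intro c; rw [ok]; rw [if_pos (by simpa using h1)]
      rw [this, this]
      simp only [Bool.false_eq_true, if_false]
      linarith
    · by_cases h2 : j + 1 = m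
      · have hok : ∀ c, ok (x :: l) (j, c) = true := by
          intro c; rw [ok]; rw [if_neg (by simpa using h1), if_pos (by simpa using h2)]
        have hW : ∀ c, W ((j, c) :: x :: l) = (1 / 2) ^ j * v ((c, false) :: b0 :: rest) := by
          intro c
          rw [W, run, if_neg (by simp only; omega), if_pos (by simpa using h2), hrun]
        rw [hok, hok, if_pos rfl, if_pos rfl, hW, hW, if_pos (show j = m - 1 by omega), ← mul_add,
          down_sum]
        have : (1 / 2 : ℝ) ^ m = (1 / 2) ^ j * (1 / 2) := by rw [← h2, pow_succ]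
        rw [hD, this]
        nlinarith [hE1, hJ0]
      · by_cases h3 : j = m
        · have hW : W ((j, x.2) :: x :: l) = E := by
            rw [W, run, if_pos (by simpa using h3), hrun, hE, List.tail_cons, h3]
          have hok : ∀ c, ok (x :: l) (j, c) = (c == x.2) := by
            intro c
            rw [ok, if_neg (by simpa using h1), if_neg (by simpa using h2),
              if_pos (by simpa using h3)]
          rw [hok, hok, if_pos h3]
          rcases hx : x.2 with _ | _
          · rw [hx] at hW
            simp only [beq_iff_eq, Bool.true_eq_false, if_false, if_true, zero_add]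
            rw [hW]; linarith
          · rw [hx] at hW
            simp only [beq_iff_eq, Bool.false_eq_true, if_false, if_true, add_zero]
            rw [hW]; linarith
        · have h4 : m < j := by omega
          have hok : ∀ c, ok (x :: l) (j, c) = jumpOk (b0 :: rest) (j - m) c := by
            intro c
            rw [ok, if_neg (by simpa using h1), if_neg (by simpa using h2),
              if_neg (by simpa using h3), hrun]
          have hW : ∀ c, W ((j, c) :: x :: l) = (1 / 2) ^ j := by
            intro c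
            rw [W, run, if_neg (by simpa using h3), if_neg (by simp only; omega), v]
            · simp
            · intro a b c h; simp at h
          rw [hok, hok, hW, hW, if_pos h4]
          have : (if jumpOk (b0 :: rest) (j - m) true = true then ((1 / 2 : ℝ)) ^ j else 0) +
              (if jumpOk (b0 :: rest) (j - m) false = true then ((1 / 2 : ℝ)) ^ j else 0) =
              (1 / 2 : ℝ) ^ j * cnt (b0 :: rest) (j - m) := by
            unfold cnt
            split_ifs <;> ring
          rw [this]
          linarith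
  refine (Finset.sum_le_sum hpt).trans ?_
  rw [Finset.sum_add_distrib, Finset.sum_add_distrib]
  have hs1 : ∑ j ∈ range M, (if j = m - 1 then D else 0) ≤ D := by
    rw [Finset.sum_ite_eq']
    split_ifs
    · exact le_refl _
    · exact hD0
  have hs2 : ∑ j ∈ range M, (if j = m then E else 0) ≤ E := by
    rw [Finset.sum_ite_eq']
    split_ifs
    · exact le_refl _
    · exact hE0
  have hs3 : ∑ j ∈ range M, (if m < j then (1 / 2 : ℝ) ^ j * cnt (b0 :: rest) (j - m) else 0) ≤
      (1 / 2 : ℝ) ^ m * (2 - (77 / 25) * S (b0 :: rest)) := by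
    have hJ0 : ∀ j, 0 ≤ (if m < j then (1 / 2 : ℝ) ^ j * cnt (b0 :: rest) (j - m) else 0) := by
      intro j
      split_ifs
      · exact mul_nonneg (by positivity) (cnt_nonneg _ _)
      · exact le_refl _
    have h1 : ∑ j ∈ range M, (if m < j then (1 / 2 : ℝ) ^ j * cnt (b0 :: rest) (j - m) else 0) ≤
        ∑ j ∈ range (m + 1 + M),
          (if m < j then (1 / 2 : ℝ) ^ j * cnt (b0 :: rest) (j - m) else 0) := by
      apply Finset.sum_le_sum_of_subset_of_nonneg
      · intro j hj
        rw [Finset.mem_range] at hj ⊢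
        omega
      · intro j _ _; exact hJ0 j
    refine h1.trans ?_
    rw [Finset.sum_range_add]
    have h2 : ∑ j ∈ range (m + 1),
        (if m < j then (1 / 2 : ℝ) ^ j * cnt (b0 :: rest) (j - m) else 0) = 0 := by
      apply Finset.sum_eq_zero
      intro j hj
      rw [Finset.mem_range] at hj
      rw [if_neg (by omega)]
    rw [h2, zero_add]
    have h3 : ∑ i ∈ range M,
        (if m < m + 1 + i then (1 / 2 : ℝ) ^ (m + 1 + i) * cnt (b0 :: rest) (m + 1 + i - m) else 0)
        = (1 / 2 : ℝ) ^ m * ∑ i ∈ range M, (1 / 2 : ℝ) ^ (i + 1) * cnt (b0 :: rest) (i + 1) := by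
      rw [Finset.mul_sum]
      refine Finset.sum_congr rfl fun i _ => ?_
      rw [if_pos (by omega), show m + 1 + i - m = i + 1 by omega,
        show m + 1 + i = m + (i + 1) by omega, pow_add]
      ring
    rw [h3]
    exact mul_le_mul_of_nonneg_left (jump_sum _ _) hz.le
  have hfin : (4 - (10775 / 11704 + 2 * S (b0 :: rest))) + v ((x.2, true) :: rest) +
      (2 - (77 / 25) * S (b0 :: rest)) ≤ (152 / 25) * v (b0 :: rest) := by
    cases rest with
    | nil => simp only [S, v]; norm_num
    | cons b1 rest' =>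
      rw [v, v, S]
      have hq := S_le (b1 :: rest')
      have ht : t1 (x.2, true) b1 = 25 / 77 := by
        unfold t1 sgl; simp
      rw [ht]
      unfold t1 t2
      split_ifs <;> linarith
  have hW : W (x :: l) = (1 / 2 : ℝ) ^ m * v (b0 :: rest) := by rw [W, hrun]
  rw [hW]
  have := mul_le_mul_of_nonneg_left hfin hz.le
  rw [hD] at hs1
  rw [hE] at hs2
  nlinarith

end Pool.Agent.H966R3.BG
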