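import Mathlib

set_option autoImplicit false

/-! Braid groups and the growth functions for the Artin generators. -/

namespace Pool.Agent.H966R3.BG

/-- The braid relations for the generators `0, …, n - 2` (i.e. `σ_1, …, σ_{n-1}`):
`σ_i σ_{i+1} σ_i = σ_{i+1} σ_i σ_{i+1}`, and `σ_i σ_j = σ_j σ_i` for `j ≥ i + 2`. -/
def Rels (n : ℕ) : Set (FreeGroup (Fin (n - 1))) :=
  {r | (∃ i j : Fin (n - 1), i.1 + 1 = j.1 ∧
        r = FreeGroup.of i * FreeGroup.of j * FreeGroup.of i *
          (FreeGroup.of j * FreeGroup.of i * FreeGroup.of j)⁻¹) ∨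
      (∃ i j : Fin (n - 1), i.1 + 2 ≤ j.1 ∧
        r = FreeGroup.of i * FreeGroup.of j * (FreeGroup.of j * FreeGroup.of i)⁻¹)}

/-- The braid group on `n` strands. -/
abbrev B (n : ℕ) : Type := PresentedGroup (Rels n)

/-- The Artin generator. -/
def sigma (n : ℕ) (i : Fin (n - 1)) : B n := PresentedGroup.of i

/-- The value of a signed letter. -/
def letter (n : ℕ) (x : Fin (n - 1) × Bool) : B n :=
  if x.2 = true then sigma n x.1 else (sigma n x.1)⁻¹

/-- The ball of radius `k`: all braids that are products of at most `k` letters. -/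
def ball (n k : ℕ) : Set (B n) :=
  {g | ∃ w : List (Fin (n - 1) × Bool), w.length ≤ k ∧ (w.map (letter n)).prod = g}

/-- The growth function `β_n(k)`. -/
noncomputable def beta (n k : ℕ) : ℕ := (ball n k).ncard

end Pool.Agent.H966R3.BG
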