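import Pool.Agent.H966R3.BG.Count

set_option autoImplicit false

/-! Counting good words. -/

namespace Pool.Agent.H966R3.BG

open Finset

/-- good words (stored in reverse order) -/
def Good (M : ℕ) : List Lt → Prop
  | [] => True
  | x :: l => ok l x = true ∧ x.1 < M ∧ Good M l

/-- the finite set of good words of length `k` -/
def Ext (M : ℕ) : ℕ → Finset (List Lt)
  | 0 => {[]}
  | k + 1 => ((Ext M k ×ˢ (range M ×ˢ (univ : Finset Bool))).filter
      (fun p => ok p.1 p.2 = true)).image (fun p => p.2 :: p.1)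

theorem good_mem (M : ℕ) : ∀ l : List Lt, Good M l → l ∈ Ext M l.length
  | [], _ => by simp [Ext]
  | x :: l, h => by
    have ih := good_mem M l h.2.2
    rw [List.length_cons, Ext, Finset.mem_image]
    refine ⟨(l, x), ?_, rfl⟩
    rw [Finset.mem_filter]
    refine ⟨?_, h.1⟩
    rw [Finset.mem_product, Finset.mem_product]
    exact ⟨ih, Finset.mem_range.2 h.2.1, Finset.mem_univ _⟩

theorem ext_good (M : ℕ) : ∀ (k : ℕ) (l : List Lt), l ∈ Ext M k → l.length = k ∧ Good M l
  | 0, l, h => by
    rw [Ext, Finset.mem_singleton] at h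
    subst h
    exact ⟨rfl, trivial⟩
  | k + 1, l, h => by
    rw [Ext, Finset.mem_image] at h
    obtain ⟨⟨l', x⟩, h1, rfl⟩ := h
    rw [Finset.mem_filter, Finset.mem_product, Finset.mem_product] at h1
    obtain ⟨h2, h3⟩ := ext_good M k l' h1.1.1
    exact ⟨by simp [h2], h1.2, Finset.mem_range.1 h1.1.2.1, h3⟩

noncomputable def Phi (M k : ℕ) : ℝ := ∑ w ∈ Ext M k, W w

theorem W_nonneg (l : List Lt) : 0 ≤ W l := by
  cases l with
  | nil => simp [W]
  | cons x l =>
    rw [W]
    have := (v_ge (run (x :: l))).1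
    have : (0:ℝ) ≤ v (run (x :: l)) := by linarith
    positivity

theorem Phi_succ (M k : ℕ) : Phi M (k + 1) =
    ∑ l ∈ Ext M k, ∑ j ∈ range M, ∑ c : Bool, (if ok l (j, c) = true then W ((j, c) :: l) else 0) := by
  unfold Phi
  rw [Ext, Finset.sum_image, Finset.sum_filter, Finset.sum_product]
  · refine Finset.sum_congr rfl fun l _ => ?_
    rw [Finset.sum_product]
  · rintro ⟨a, b⟩ _ ⟨c, d⟩ _ h
    simp only [List.cons.injEq] at h
    rw [h.1, h.2]

theorem Phi_step (M k : ℕ) : Phi M (k + 2) ≤ (152 / 25) * Phi M (k + 1) := by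
  rw [Phi_succ M (k + 1)]
  conv_rhs => rw [Phi, Finset.mul_sum]
  refine Finset.sum_le_sum fun l hl => ?_
  obtain ⟨h1, _⟩ := ext_good M (k + 1) l hl
  cases l with
  | nil => simp at h1
  | cons x l => exact step M x l

theorem Phi_bound (M k : ℕ) : Phi M (k + 1) ≤ Phi M 1 * (152 / 25) ^ k := by
  induction k with
  | zero => simp
  | succ k ih =>
    have := Phi_step M k
    rw [pow_succ]
    linarith

theorem card_bound (M k : ℕ) :
    ((Ext M (k + 1)).card : ℝ) ≤ (4 * 2 ^ M * Phi M 1) * (152 / 25) ^ k := by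
  have h1 : ∀ w ∈ Ext M (k + 1), (1 / 4 : ℝ) * (1 / 2) ^ M ≤ W w := by
    intro w hw
    obtain ⟨h1, h2⟩ := ext_good M (k + 1) w hw
    cases w with
    | nil => simp at h1
    | cons x l =>
      rw [W]
      have h3 := (v_ge (run (x :: l))).1
      have h4 : ((1 / 2 : ℝ)) ^ M ≤ (1 / 2) ^ x.1 :=
        pow_le_pow_of_le_one (by norm_num) (by norm_num) h2.2.1.le
      have h5 : (0 : ℝ) < (1 / 2) ^ M := by positivity
      nlinarith
  have h2 : ((Ext M (k + 1)).card : ℝ) * ((1 / 4 : ℝ) * (1 / 2) ^ M) ≤ Phi M (k + 1) := by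
    rw [Phi, ← nsmul_eq_mul]
    exact Finset.card_nsmul_le_sum _ _ _ h1
  have h3 := Phi_bound M k
  have h4 : ((1 / 2 : ℝ)) ^ M * 2 ^ M = 1 := by
    rw [← mul_pow]; norm_num
  have h5 : ((Ext M (k + 1)).card : ℝ) =
      (((Ext M (k + 1)).card : ℝ) * ((1 / 4 : ℝ) * (1 / 2) ^ M)) * (4 * 2 ^ M) := by
    have : (((Ext M (k + 1)).card : ℝ) * ((1 / 4 : ℝ) * (1 / 2) ^ M)) * (4 * 2 ^ M) =
      ((Ext M (k + 1)).card : ℝ) * (((1 / 2 : ℝ)) ^ M * 2 ^ M) := by ring
    rw [this, h4, mul_one]
  rw [h5]
  calc (((Ext M (k + 1)).card : ℝ) * ((1 / 4 : ℝ) * (1 / 2) ^ M)) * (4 * 2 ^ M)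
      ≤ (Phi M 1 * (152 / 25) ^ k) * (4 * 2 ^ M) :=
        mul_le_mul_of_nonneg_right (h2.trans h3) (by positivity)
    _ = _ := by ring

/-! structure of the runs -/

theorem jump_struct : ∀ (bs : List Blk) (i : ℕ) (c : Bool), jumpOk bs (i + 1) c = false →
    ∃ b0 b1, bs[i]? = some b0 ∧ bs[i + 1]? = some b1 ∧
      (c ≠ b1.1 ∨ (b0.1 = b1.1 ∧ b0.2 = false))
  | [], i, c, h => by simp [jumpOk] at h
  | [b], i, c, h => by simp [jumpOk] at h
  | b0 :: b1 :: rest, 0, c, h => by
    refine ⟨b0, b1, rfl, rfl, ?_⟩
    rw [jumpOk] at h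
    by_cases hc : c = b1.1
    · right
      simp only [hc, beq_self_eq_true, Bool.true_and, Bool.not_eq_false', sgl, Bool.and_eq_true,
        beq_iff_eq, Bool.not_eq_true'] at h
      exact h
    · left; exact hc
  | b0 :: b1 :: rest, i + 1, c, h => by
    rw [jumpOk] at h
    obtain ⟨a0, a1, h0, h1, h2⟩ := jump_struct (b1 :: rest) i c h
    exact ⟨a0, a1, by simpa using h0, by simpa using h1, h2⟩

theorem run_struct (M : ℕ) : ∀ (l : List Lt) (x : Lt), Good M (x :: l) → ∀ (i : ℕ) (b0 b1 : Blk),
    (run (x :: l))[i]? = some b0 → (run (x :: l))[i + 1]? = some b1 →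
    ∃ (u : List Lt) (p : ℕ) (rest : List Lt),
      x :: l = u ++ (List.replicate (p + 1) (x.1 + i, b0.1) ++ (x.1 + i + 1, b1.1) :: rest) ∧
      (∀ z ∈ u, z.1 + 2 ≤ x.1 + i + 1) ∧ (b0.2 = false → p = 0)
  | [], x, _, i, b0, b1, h0, h1 => by
    simp [run] at h1
  | y :: l, x, hg, i, b0, b1, h0, h1 => by
    have ih := run_struct M l y hg.2.2
    obtain ⟨c0, crest, hrun, hc0⟩ := run_ne y l
    rw [run] at h0 h1
    by_cases hxy : x.1 = y.1
    · rw [if_pos hxy] at h0 h1
      have hok := hg.1
      rw [ok, if_neg (by omega), if_neg (by omega), if_pos hxy] at hok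
      have hs : x.2 = y.2 := by simpa using hok
      have hxy' : x = y := Prod.ext hxy hs
      rw [hrun, List.tail_cons] at h0 h1
      cases i with
      | zero =>
        simp only [List.getElem?_cons_zero, Option.some.injEq] at h0
        simp only [Nat.zero_add, List.getElem?_cons_succ] at h1
        obtain ⟨u, p, rest, e1, e2, e3⟩ := ih 0 c0 b1 (by rw [hrun]; rfl) (by
          rw [hrun]; simpa using h1)
        have hu : u = [] := by
          cases u with
          | nil => rfl
          | cons z u =>
            exfalso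
            have hz : z = y := by
              have := congrArg List.head? e1
              simpa using this.symm
            have := e2 z (by simp)
            rw [hz] at this
            omega
        subst hu
        refine ⟨[], p + 1, rest, ?_, by simp, ?_⟩
        · rw [e1, List.nil_append, List.nil_append, List.replicate_succ (n := p + 1)]
          rw [List.cons_append]
          subst hxy'
          rw [← h0, hc0]
          simp
        · intro h; rw [← h0] at h; simp at h
      | succ i =>
        simp only [List.getElem?_cons_succ] at h0 h1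
        obtain ⟨u, p, rest, e1, e2, e3⟩ := ih (i + 1) b0 b1 (by rw [hrun]; simpa using h0)
          (by rw [hrun]; simpa using h1)
        refine ⟨x :: u, p, rest, ?_, ?_, e3⟩
        · rw [e1, hxy]; rfl
        · intro z hz
          rw [List.mem_cons] at hz
          rcases hz with rfl | hz
          · omega
          · have := e2 z hz
            omega
    · by_cases hxy2 : x.1 + 1 = y.1
      · rw [if_neg hxy, if_pos hxy2] at h0 h1
        cases i with
        | zero =>
          simp only [List.getElem?_cons_zero, Option.some.injEq] at h0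
          simp only [Nat.zero_add, List.getElem?_cons_succ] at h1
          rw [hrun] at h1
          simp only [List.getElem?_cons_zero, Option.some.injEq] at h1
          refine ⟨[], 0, l, ?_, by simp, fun _ => rfl⟩
          rw [← h0, ← h1, hc0]
          simp only [Nat.add_zero, Nat.zero_add, List.replicate_one, List.nil_append,
            List.singleton_append]
          rw [hxy2]
        | succ i =>
          simp only [List.getElem?_cons_succ] at h0 h1
          obtain ⟨u, p, rest, e1, e2, e3⟩ := ih i b0 b1 h0 h1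
          refine ⟨x :: u, p, rest, ?_, ?_, e3⟩
          · rw [e1]
            have h1 : y.1 + i = x.1 + (i + 1) := by omega
            rw [h1]; rfl
          · intro z hz
            rw [List.mem_cons] at hz
            rcases hz with rfl | hz
            · omega
            · have := e2 z hz
              omega
      · rw [if_neg hxy, if_neg hxy2] at h1
        simp at h1

end Pool.Agent.H966R3.BG
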