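import Pool.Agent.H966R3.BG.Grp
import Pool.Agent.H966R3.BG.Defs

set_option autoImplicit false

namespace Pool.Agent.H966R3.BG

open Finset Filter Topology

theorem rel_braid (n : ℕ) (i j : Fin (n - 1)) (h : i.1 + 1 = j.1) :
    sigma n i * sigma n j * sigma n i = sigma n j * sigma n i * sigma n j := by
  have h1 : (PresentedGroup.mk (Rels n)) (FreeGroup.of i * FreeGroup.of j * FreeGroup.of i *
          (FreeGroup.of j * FreeGroup.of i * FreeGroup.of j)⁻¹) = 1 := by
    apply PresentedGroup.one_of_mem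
    left
    exact ⟨i, j, h, rfl⟩
  rw [map_mul, map_inv, mul_inv_eq_one] at h1
  simp only [map_mul] at h1
  exact h1

theorem rel_comm (n : ℕ) (i j : Fin (n - 1)) (h : i.1 + 2 ≤ j.1) :
    sigma n i * sigma n j = sigma n j * sigma n i := by
  have h1 : (PresentedGroup.mk (Rels n)) (FreeGroup.of i * FreeGroup.of j *
          (FreeGroup.of j * FreeGroup.of i)⁻¹) = 1 := by
    apply PresentedGroup.one_of_mem
    right
    exact ⟨i, j, h, rfl⟩
  rw [map_mul, map_inv, mul_inv_eq_one] at h1
  simp only [map_mul] at h1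
  exact h1

/-- the generators as a sequence -/
def sg (n : ℕ) (i : ℕ) : B n := if h : i < n - 1 then sigma n ⟨i, h⟩ else 1

theorem sg_BR (n : ℕ) : BR (n - 1) (sg n) where
  braid i hi := by
    unfold sg
    rw [dif_pos hi, dif_pos (by omega)]
    exact rel_braid n ⟨i, by omega⟩ ⟨i + 1, hi⟩ rfl
  comm i j hij hj := by
    unfold sg
    rw [dif_pos hj, dif_pos (by omega)]
    exact rel_comm n ⟨i, by omega⟩ ⟨j, hj⟩ hij

theorem rp_word (n : ℕ) (w : List (Fin (n - 1) × Bool)) :
    rp (sg n) ((w.map fun x => ((x.1.1, x.2) : Lt)).reverse) = (w.map (letter n)).prod := by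
  induction w with
  | nil => simp [rp]
  | cons x w ih =>
    rw [List.map_cons, List.reverse_cons, rp_append, ih, List.map_cons, List.prod_cons]
    congr 1
    rw [rp, rp, one_mul, e, letter, sg, dif_pos x.1.2]

/-- all good words of length at most `k` -/
def Wd (M k : ℕ) : Finset (List Lt) := (range (k + 1)).biUnion (Ext M)

theorem ball_sub (n k : ℕ) (hn : 2 ≤ n) : ball n k ⊆ rp (sg n) '' (Wd (n - 1) k : Set (List Lt)) := by
  rintro g ⟨w, hw, rfl⟩
  obtain ⟨w', h1, h2, h3⟩ := exists_good (M := n - 1) (by omega) (sg_BR n)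
    ((w.map fun x => ((x.1.1, x.2) : Lt)).reverse) (by
      intro y hy
      rw [List.mem_reverse, List.mem_map] at hy
      obtain ⟨x, _, rfl⟩ := hy
      exact x.1.2)
  refine ⟨w', ?_, ?_⟩
  · rw [Finset.mem_coe, Wd, Finset.mem_biUnion]
    refine ⟨w'.length, ?_, good_mem _ _ h1⟩
    rw [Finset.mem_range]
    simp only [List.length_reverse, List.length_map] at h3
    omega
  · rw [h2, rp_word]

theorem ball_finite (n k : ℕ) (hn : 2 ≤ n) : (ball n k).Finite :=
  ((Wd (n - 1) k).finite_toSet.image _).subset (ball_sub n k hn)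

theorem beta_bound (n : ℕ) (hn : 2 ≤ n) : ∃ C : ℝ, 0 < C ∧ ∀ k : ℕ,
    (beta n k : ℝ) ≤ C * (152 / 25) ^ k := by
  set D : ℝ := 4 * 2 ^ (n - 1) * Phi (n - 1) 1 with hD
  have hD0 : 0 ≤ D := by
    rw [hD]
    have : 0 ≤ Phi (n - 1) 1 := Finset.sum_nonneg fun w _ => W_nonneg w
    positivity
  have hcard : ∀ j, ((Ext (n - 1) j).card : ℝ) ≤ (1 + D) * (152 / 25) ^ j := by
    intro j
    cases j with
    | zero => simp [Ext]; linarith
    | succ j =>
      refine (card_bound (n - 1) j).trans ?_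
      rw [← hD]
      have h1 : (0 : ℝ) < (152 / 25) ^ j := by positivity
      rw [pow_succ]
      nlinarith
  refine ⟨(1 + D) * 2, by positivity, fun k => ?_⟩
  have h1 : beta n k ≤ ∑ j ∈ range (k + 1), (Ext (n - 1) j).card := by
    calc beta n k ≤ (rp (sg n) '' (Wd (n - 1) k : Set (List Lt))).ncard :=
          Set.ncard_le_ncard (ball_sub n k hn) ((Wd (n - 1) k).finite_toSet.image _)
      _ ≤ (Wd (n - 1) k : Set (List Lt)).ncard := Set.ncard_image_le (Wd (n - 1) k).finite_toSet
      _ = (Wd (n - 1) k).card := Set.ncard_coe_finset _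
      _ ≤ _ := Finset.card_biUnion_le
  have h2 : (beta n k : ℝ) ≤ ∑ j ∈ range (k + 1), (1 + D) * (152 / 25) ^ j := by
    refine le_trans (b := ∑ j ∈ range (k + 1), ((Ext (n - 1) j).card : ℝ)) (by exact_mod_cast h1) ?_
    exact Finset.sum_le_sum fun j _ => hcard j
  refine h2.trans ?_
  rw [← Finset.mul_sum, geom_sum_eq (by norm_num)]
  have h3 : (((152 : ℝ) / 25) ^ (k + 1) - 1) / (152 / 25 - 1) ≤ 2 * (152 / 25) ^ k := by
    rw [div_le_iff₀ (by norm_num), pow_succ]
    have h1 : (0 : ℝ) < (152 / 25) ^ k := by positivity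
    nlinarith
  calc (1 + D) * ((((152 : ℝ) / 25) ^ (k + 1) - 1) / (152 / 25 - 1))
      ≤ (1 + D) * (2 * (152 / 25) ^ k) := mul_le_mul_of_nonneg_left h3 (by linarith)
    _ = _ := by ring

theorem one_mem_ball (n k : ℕ) : (1 : B n) ∈ ball n k := ⟨[], by simp, by simp⟩

theorem beta_pos (n k : ℕ) (hn : 2 ≤ n) : 0 < beta n k :=
  (Set.ncard_pos (ball_finite n k hn)).2 ⟨1, one_mem_ball n k⟩

theorem beta_mul (n : ℕ) (hn : 2 ≤ n) (a b : ℕ) : beta n (a + b) ≤ beta n a * beta n b := by
  have h1 : ball n (a + b) ⊆ (fun p : B n × B n => p.1 * p.2) '' (ball n a ×ˢ ball n b) := by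
    rintro g ⟨w, hw, rfl⟩
    refine ⟨(((w.take a).map (letter n)).prod, ((w.drop a).map (letter n)).prod), ?_, ?_⟩
    · refine ⟨⟨_, ?_, rfl⟩, ⟨_, ?_, rfl⟩⟩
      · rw [List.length_take]; omega
      · rw [List.length_drop]; omega
    · simp only
      rw [← List.prod_append, ← List.map_append, List.take_append_drop]
  have hf := (ball_finite n a hn).prod (ball_finite n b hn)
  calc beta n (a + b) ≤ ((fun p : B n × B n => p.1 * p.2) '' (ball n a ×ˢ ball n b)).ncard :=
        Set.ncard_le_ncard h1 (hf.image _)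
    _ ≤ (ball n a ×ˢ ball n b).ncard := Set.ncard_image_le hf
    _ = _ := Set.ncard_prod

theorem growth (n : ℕ) (hn : 2 ≤ n) : ∃ w : ℝ,
    Tendsto (fun k : ℕ => (beta n k : ℝ) ^ (1 / (k : ℝ))) atTop (𝓝 w) ∧ w ≤ 152 / 25 := by
  have hpos : ∀ k, (0 : ℝ) < beta n k := fun k => by exact_mod_cast beta_pos n k hn
  have hsub : Subadditive (fun k => Real.log (beta n k)) := by
    intro a b
    rw [← Real.log_mul (hpos a).ne' (hpos b).ne']
    apply Real.log_le_log (hpos _)
    exact_mod_cast beta_mul n hn a b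
  have hbdd : BddBelow (Set.range fun k : ℕ => Real.log (beta n k) / k) := by
    refine ⟨0, ?_⟩
    rintro _ ⟨k, rfl⟩
    have : (1 : ℝ) ≤ beta n k := by exact_mod_cast beta_pos n k hn
    exact div_nonneg (Real.log_nonneg this) (Nat.cast_nonneg k)
  have hlim := hsub.tendsto_lim hbdd
  obtain ⟨C, hC, hb⟩ := beta_bound n hn
  refine ⟨Real.exp hsub.lim, ?_, ?_⟩
  · have h1 := (Real.continuous_exp.tendsto hsub.lim).comp hlim
    refine h1.congr fun k => ?_
    simp only [Function.comp]
    rw [Real.rpow_def_of_pos (hpos k)]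
    congr 1
    ring
  · have h1 : hsub.lim ≤ Real.log (152 / 25) := by
      have h2 : Tendsto (fun k : ℕ => Real.log C / k + Real.log (152 / 25)) atTop
          (𝓝 (0 + Real.log (152 / 25))) :=
        (tendsto_const_div_atTop_nhds_zero_nat _).add_const _
      rw [zero_add] at h2
      refine le_of_tendsto_of_tendsto hlim h2 ?_
      filter_upwards [eventually_gt_atTop 0] with k hk
      have hk' : (0 : ℝ) < k := by exact_mod_cast hk
      have h3 := Real.log_le_log (hpos k) (hb k)
      rw [Real.log_mul hC.ne' (by positivity), Real.log_pow] at h3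
      rw [div_add' _ _ _ hk'.ne']
      apply div_le_div_of_nonneg_right _ hk'.le
      linarith
    calc Real.exp hsub.lim ≤ Real.exp (Real.log (152 / 25)) := Real.exp_le_exp.2 h1
      _ = 152 / 25 := Real.exp_log (by norm_num)

end Pool.Agent.H966R3.BG
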