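import Pool.Agent.H966R3.BG.Ext

set_option autoImplicit false

/-! Rewriting in a group satisfying the braid relations. -/

namespace Pool.Agent.H966R3.BG

open Finset

section
variable {G : Type*} [Group G]

/-- the value of a letter -/
def e (σ : ℕ → G) (x : Lt) : G := if x.2 = true then σ x.1 else (σ x.1)⁻¹

/-- the value of a word stored in reverse order -/
def rp (σ : ℕ → G) : List Lt → G
  | [] => 1
  | x :: l => rp σ l * e σ x

theorem rp_append (σ : ℕ → G) (u w : List Lt) : rp σ (u ++ w) = rp σ w * rp σ u := by
  induction u with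
  | nil => simp [rp]
  | cons x u ih => rw [List.cons_append, rp, rp, ih, mul_assoc]

theorem rp_replicate (σ : ℕ → G) (n : ℕ) (x : Lt) : rp σ (List.replicate n x) = e σ x ^ n := by
  induction n with
  | zero => simp [rp]
  | succ n ih => rw [List.replicate_succ, rp, ih, pow_succ]

theorem e_not (σ : ℕ → G) (j : ℕ) (a : Bool) : e σ (j, !a) = (e σ (j, a))⁻¹ := by
  cases a <;> simp [e]

/-- the braid relations for the indices below `M` -/
structure BR (M : ℕ) (σ : ℕ → G) : Prop where
  braid : ∀ i, i + 1 < M → σ i * σ (i + 1) * σ i = σ (i + 1) * σ i * σ (i + 1)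
  comm : ∀ i j, i + 2 ≤ j → j < M → Commute (σ i) (σ j)

theorem comm_e {M : ℕ} {σ : ℕ → G} (h : BR M σ) (x y : Lt) (hxy : x.1 + 2 ≤ y.1) (hy : y.1 < M) :
    Commute (e σ x) (e σ y) := by
  have := h.comm x.1 y.1 hxy hy
  unfold e
  split_ifs
  · exact this
  · exact this.inv_right
  · exact this.inv_left
  · exact this.inv_left.inv_right

theorem comm_rp {M : ℕ} {σ : ℕ → G} (h : BR M σ) (u : List Lt) (y : Lt)
    (hu : ∀ z ∈ u, z.1 + 2 ≤ y.1) (hy : y.1 < M) : Commute (rp σ u) (e σ y) := by
  induction u with
  | nil => exact Commute.one_left _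
  | cons x u ih =>
    rw [rp]
    exact (ih fun z hz => hu z (List.mem_cons_of_mem _ hz)).mul_left
      (comm_e h x y (hu x List.mem_cons_self) hy)

/-- `t s t⁻¹ = s⁻¹ t s` and its variants, in terms of letters -/
theorem conj_pos {s t : G} (h : s * t * s = t * s * t) : t * s * t⁻¹ = s⁻¹ * t * s := by
  have : s * (t * s * t⁻¹) = s * (s⁻¹ * t * s) := by
    calc s * (t * s * t⁻¹) = s * t * s * t⁻¹ := by group
      _ = t * s * t * t⁻¹ := by rw [h]
      _ = s * (s⁻¹ * t * s) := by group
  exact mul_left_cancel this

theorem conj_neg {s t : G} (h : s * t * s = t * s * t) : t⁻¹ * s * t = s * t * s⁻¹ := by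
  have : t * (t⁻¹ * s * t) * s = t * (s * t * s⁻¹) * s := by
    calc t * (t⁻¹ * s * t) * s = s * t * s := by group
      _ = t * s * t := by rw [h]
      _ = t * (s * t * s⁻¹) * s := by group
  exact mul_left_cancel (mul_right_cancel this)

theorem conj_pow' {s t g k : G} (h : g * s * g⁻¹ = k * t * k⁻¹) (n : ℕ) :
    g * s ^ n * g⁻¹ = k * t ^ n * k⁻¹ := by
  rw [← _root_.conj_pow, ← _root_.conj_pow, h]

theorem conj_letter {M : ℕ} {σ : ℕ → G} (h : BR M σ) (i : ℕ) (hi : i + 1 < M) (a b : Bool) (n : ℕ) :
    e σ (i + 1, a) * e σ (i, b) ^ n * e σ (i + 1, !a) =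
      e σ (i, !a) * e σ (i + 1, b) ^ n * e σ (i, a) := by
  have hb := h.braid i hi
  have key : e σ (i + 1, a) * σ i * (e σ (i + 1, a))⁻¹ =
      (e σ (i, a))⁻¹ * σ (i + 1) * ((e σ (i, a))⁻¹)⁻¹ := by
    cases a
    · simp only [e, Bool.false_eq_true, if_false, inv_inv]
      exact conj_neg hb
    · simp only [e, if_true, inv_inv]
      exact conj_pos hb
  have key2 : e σ (i + 1, a) * e σ (i, b) * (e σ (i + 1, a))⁻¹ =
      (e σ (i, a))⁻¹ * e σ (i + 1, b) * ((e σ (i, a))⁻¹)⁻¹ := by
    cases b
    · have h1 : e σ (i, false) = (σ i)⁻¹ := rfl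
      have h2 : e σ (i + 1, false) = (σ (i + 1))⁻¹ := rfl
      rw [h1, h2, ← conj_inv, ← conj_inv, key]
    · exact key
  have key3 := conj_pow' key2 n
  rw [inv_inv] at key3
  rw [e_not, e_not]
  exact key3

theorem braid_letter {M : ℕ} {σ : ℕ → G} (h : BR M σ) (i : ℕ) (hi : i + 1 < M) (a : Bool) :
    e σ (i + 1, a) * e σ (i, a) * e σ (i + 1, a) = e σ (i, a) * e σ (i + 1, a) * e σ (i, a) := by
  have hb := h.braid i hi
  cases a
  · simp only [e, Bool.false_eq_true, if_false]
    have := congrArg (·⁻¹) hb
    simp only [mul_inv_rev] at this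
    rw [mul_assoc, mul_assoc]
    exact this.symm
  · simp only [e, if_true]
    exact hb.symm

end

/-- the number read off from the indices (most significant digit: the first letter) -/
def mu (M : ℕ) : List Lt → ℕ
  | [] => 0
  | x :: l => mu M l * M + x.1

theorem mu_append (M : ℕ) (u w : List Lt) : mu M (u ++ w) = mu M w * M ^ u.length + mu M u := by
  induction u with
  | nil => simp [mu]
  | cons x u ih =>
    rw [List.cons_append, mu, mu, ih, List.length_cons, pow_succ]
    ring

theorem mu_lt (M : ℕ) (u : List Lt) (hu : ∀ z ∈ u, z.1 < M) : mu M u < M ^ u.length := by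
  induction u with
  | nil => simp [mu]
  | cons x u ih =>
    rw [mu, List.length_cons, pow_succ]
    have h1 := ih fun z hz => hu z (List.mem_cons_of_mem _ hz)
    have h2 := hu x List.mem_cons_self
    nlinarith

theorem mu_cmp (M : ℕ) (A A' rest : List Lt) (x y : Lt) (hA : ∀ z ∈ A, z.1 < M)
    (hl : A.length = A'.length) (hxy : x.1 < y.1) :
    mu M (A ++ x :: rest) < mu M (A' ++ y :: rest) := by
  rw [mu_append, mu_append, mu, mu, ← hl]
  have h1 := mu_lt M A hA
  have h2 : (mu M rest * M + x.1 + 1) * M ^ A.length ≤ (mu M rest * M + y.1) * M ^ A.length :=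
    Nat.mul_le_mul_right _ (by omega)
  nlinarith

/-- shortlex comparison -/
def Less (M : ℕ) (w' w : List Lt) : Prop :=
  w'.length < w.length ∨ (w'.length = w.length ∧ mu M w' < mu M w)

theorem Less_append (M : ℕ) (z w' w : List Lt) (hM : 0 < M) (h : Less M w' w) :
    Less M (z ++ w') (z ++ w) := by
  rcases h with h | ⟨h1, h2⟩
  · left; simpa using h
  · right
    refine ⟨by simp [h1], ?_⟩
    rw [mu_append, mu_append]
    have : 0 < M ^ z.length := by positivity
    have := Nat.mul_lt_mul_of_pos_right h2 this
    omega

theorem rewrite {G : Type*} [Group G] {M : ℕ} {σ : ℕ → G} (h : BR M σ) (x : Lt) (l : List Lt)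
    (hx : x.1 < M) (hl : Good M l) (hlM : ∀ z ∈ l, z.1 < M) (hok : ok l x = false) :
    ∃ w' : List Lt, (∀ z ∈ w', z.1 < M) ∧ rp σ w' = rp σ (x :: l) ∧ Less M w' (x :: l) := by
  cases l with
  | nil => simp [ok] at hok
  | cons y l =>
    have hy : y.1 < M := hlM y List.mem_cons_self
    have hlM' : ∀ z ∈ l, z.1 < M := fun z hz => hlM z (List.mem_cons_of_mem _ hz)
    rw [ok] at hok
    by_cases h1 : x.1 + 2 ≤ y.1
    · refine ⟨y :: x :: l, ?_, ?_, ?_⟩
      · intro z hz
        rw [List.mem_cons, List.mem_cons] at hz
        rcases hz with rfl | rfl | hz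
        · exact hy
        · exact hx
        · exact hlM' z hz
      · rw [rp, rp, rp, rp, mul_assoc, mul_assoc, (comm_e h x y h1 hy).eq]
      · right
        refine ⟨rfl, ?_⟩
        exact mu_cmp M [y] [x] l x y (by simpa using hy) rfl (by omega)
    · rw [if_neg h1] at hok
      by_cases h2 : x.1 + 1 = y.1
      · rw [if_pos h2] at hok; simp at hok
      · rw [if_neg h2] at hok
        by_cases h3 : x.1 = y.1
        · rw [if_pos h3] at hok
          have hs : x.2 = !y.2 := by
            revert hok; rcases x.2 with _ | _ <;> rcases y.2 with _ | _ <;> simp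
          have hx' : x = (y.1, !y.2) := Prod.ext h3 hs
          refine ⟨l, hlM', ?_, ?_⟩
          · rw [rp, rp, hx', e_not]
            simp
          · left; simp
        · rw [if_neg h3] at hok
          obtain ⟨i, hi⟩ : ∃ i, x.1 = y.1 + i + 1 := ⟨x.1 - y.1 - 1, by omega⟩
          rw [show x.1 - y.1 = i + 1 by omega] at hok
          obtain ⟨b0, b1, hb0, hb1, hc⟩ := jump_struct _ _ _ hok
          obtain ⟨u, p, rest, he, hu, hp⟩ := run_struct M l y hl i b0 b1 hb0 hb1
          set k := y.1 + i with hk
          have hkM : k + 1 < M := by omega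
          have huM : ∀ z ∈ u, z.1 < M := by
            intro z hz
            have := hu z hz
            omega
          have hrM : ∀ z ∈ rest, z.1 < M := by
            intro z hz
            apply hlM z
            rw [he]
            simp [hz]
          have hcomm : Commute (rp σ u) (e σ x) := by
            apply comm_rp h u x _ hx
            intro z hz
            have := hu z hz
            omega
          have hxe : x = (k + 1, x.2) := Prod.ext hi rfl
          have hval : rp σ (x :: y :: l) =
              rp σ rest * e σ (k + 1, b1.1) * e σ (k, b0.1) ^ (p + 1) * e σ x * rp σ u := by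
            rw [rp, he, rp_append, rp_append, rp_replicate, rp, mul_assoc, hcomm.eq, ← mul_assoc]
          by_cases hca : x.2 = b1.1
          · -- second pattern
            rcases hc with hc | ⟨hc1, hc2⟩
            · exact absurd hca hc
            · have hp0 := hp hc2
              subst hp0
              refine ⟨(u ++ [(k, b1.1), (k + 1, b1.1)]) ++ (k, b1.1) :: rest, ?_, ?_, ?_⟩
              · intro z hz
                simp only [List.mem_append, List.mem_cons, List.not_mem_nil, or_false] at hz
                rcases hz with (hz | rfl | rfl) | rfl | hz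
                · exact huM z hz
                · simp only; omega
                · simp only; omega
                · simp only; omega
                · exact hrM z hz
              · rw [hval, rp_append, rp_append, rp, rp, rp, rp]
                have hb := braid_letter h k hkM b1.1
                rw [hxe, hca, hc1, zero_add, pow_one, one_mul]
                calc rp σ rest * e σ (k, b1.1) * (e σ (k + 1, b1.1) * e σ (k, b1.1) * rp σ u)
                    = rp σ rest * (e σ (k, b1.1) * e σ (k + 1, b1.1) * e σ (k, b1.1)) * rp σ u := by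
                      group
                  _ = rp σ rest * (e σ (k + 1, b1.1) * e σ (k, b1.1) * e σ (k + 1, b1.1)) * rp σ u := by
                      rw [hb]
                  _ = _ := by group
              · right
                rw [he]
                refine ⟨by simp; omega, ?_⟩
                have := mu_cmp M (u ++ [(k, b1.1), (k + 1, b1.1)]) (x :: (u ++ [(k, b0.1)])) rest
                  (k, b1.1) (k + 1, b1.1) (by
                    intro z hz
                    simp only [List.mem_append, List.mem_cons, List.not_mem_nil, or_false] at hz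
                    rcases hz with hz | rfl | rfl
                    · exact huM z hz
                    · simp only; omega
                    · simp only; omega) (by simp) (by simp)
                refine lt_of_lt_of_eq this ?_
                simp
          · -- first pattern
            have hs : x.2 = !b1.1 := by
              revert hca; rcases x.2 with _ | _ <;> rcases b1.1 with _ | _ <;> simp
            refine ⟨(u ++ (k, b1.1) :: List.replicate (p + 1) (k + 1, b0.1)) ++
              (k, !b1.1) :: rest, ?_, ?_, ?_⟩
            · intro z hz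
              simp only [List.mem_append, List.mem_cons, List.mem_replicate] at hz
              rcases hz with (hz | rfl | ⟨_, rfl⟩) | rfl | hz
              · exact huM z hz
              · simp only; omega
              · simp only; omega
              · simp only; omega
              · exact hrM z hz
            · rw [hval, rp_append, rp_append, rp, rp, rp_replicate]
              have hb := conj_letter h k hkM b1.1 b0.1 (p + 1)
              rw [hxe, hs]
              calc rp σ rest * e σ (k, !b1.1) * (e σ (k + 1, b0.1) ^ (p + 1) * e σ (k, b1.1) * rp σ u)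
                  = rp σ rest * (e σ (k, !b1.1) * e σ (k + 1, b0.1) ^ (p + 1) * e σ (k, b1.1)) *
                    rp σ u := by simp only [mul_assoc]
                _ = rp σ rest * (e σ (k + 1, b1.1) * e σ (k, b0.1) ^ (p + 1) * e σ (k + 1, !b1.1)) *
                    rp σ u := by rw [hb]
                _ = _ := by simp only [mul_assoc]
            · right
              rw [he]
              refine ⟨by simp; omega, ?_⟩
              have := mu_cmp M (u ++ (k, b1.1) :: List.replicate (p + 1) (k + 1, b0.1))
                (x :: (u ++ List.replicate (p + 1) (k, b0.1))) rest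
                (k, !b1.1) (k + 1, b1.1) (by
                  intro z hz
                  simp only [List.mem_append, List.mem_cons, List.mem_replicate] at hz
                  rcases hz with hz | rfl | ⟨_, rfl⟩
                  · exact huM z hz
                  · simp only; omega
                  · simp only; omega) (by simp; omega) (by simp)
              refine lt_of_lt_of_eq this ?_
              simp

/-- every suffix of a minimal word is good -/
theorem min_good {G : Type*} [Group G] {M : ℕ} (hM : 0 < M) {σ : ℕ → G} (h : BR M σ) :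
    ∀ (l z : List Lt), (∀ y ∈ z ++ l, y.1 < M) →
    (∀ w' : List Lt, (∀ y ∈ w', y.1 < M) → rp σ w' = rp σ (z ++ l) → ¬ Less M w' (z ++ l)) →
    Good M l
  | [], _, _, _ => trivial
  | x :: l, z, hb, hmin => by
    have hrec : Good M l := by
      refine min_good hM h l (z ++ [x]) ?_ ?_
      · intro y hy; apply hb y; simpa using hy
      · intro w' hw' he hL
        refine hmin w' hw' ?_ ?_
        · rw [he]; simp
        · simpa using hL
    refine ⟨?_, hb x (by simp), hrec⟩
    by_contra hok
    rw [Bool.not_eq_true] at hok
    obtain ⟨w', h1, h2, h3⟩ := rewrite h x l (hb x (by simp)) hrec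
      (fun y hy => hb y (by simp [hy])) hok
    refine hmin (z ++ w') ?_ ?_ ?_
    · intro y hy
      rw [List.mem_append] at hy
      rcases hy with hy | hy
      · exact hb y (by simp [hy])
      · exact h1 y hy
    · rw [rp_append, rp_append, h2]
    · exact Less_append M z w' (x :: l) hM h3

/-- existence of good representatives -/
theorem exists_good {G : Type*} [Group G] {M : ℕ} (hM : 0 < M) {σ : ℕ → G} (h : BR M σ)
    (w : List Lt) (hw : ∀ y ∈ w, y.1 < M) :
    ∃ w' : List Lt, Good M w' ∧ rp σ w' = rp σ w ∧ w'.length ≤ w.length := by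
  classical
  -- minimal length
  have h1 : ∃ n, ∃ w' : List Lt, (∀ y ∈ w', y.1 < M) ∧ rp σ w' = rp σ w ∧ w'.length = n :=
    ⟨w.length, w, hw, rfl, rfl⟩
  set n := Nat.find h1 with hn
  have h2 : ∃ m, ∃ w' : List Lt, (∀ y ∈ w', y.1 < M) ∧ rp σ w' = rp σ w ∧ w'.length = n ∧
      mu M w' = m := by
    obtain ⟨w', a, b, c⟩ := Nat.find_spec h1
    exact ⟨mu M w', w', a, b, c, rfl⟩
  set m := Nat.find h2 with hm
  obtain ⟨w', a, b, c, d⟩ := Nat.find_spec h2
  refine ⟨w', ?_, b, ?_⟩
  · refine min_good hM h w' [] (by simpa using a) ?_
    intro w'' ha hb hL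
    rw [List.nil_append] at hb hL
    rcases hL with hL | ⟨hL1, hL2⟩
    · have := Nat.find_min h1 (m := w''.length) (by rw [← hn]; omega)
      exact this ⟨w'', ha, hb.trans b, rfl⟩
    · have := Nat.find_min h2 (m := mu M w'') (by rw [← hm]; omega)
      exact this ⟨w'', ha, hb.trans b, hL1.trans c, rfl⟩
  · rw [c]
    exact Nat.find_min' h1 ⟨w, hw, rfl, rfl⟩

end Pool.Agent.H966R3.BG
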