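import Pool.Agent.H966R3.BG.Fin

set_option autoImplicit false

/-! A lower bound: the monoid generated by the alternating generators. -/

namespace Pool.Agent.H966R3.BG

open Finset Filter Topology

/-- the elementary map `v (i+1) ↦ v (i+1) + v i + v (i+2)` -/
def T (i : ℕ) : Equiv.Perm (ℕ → ℤ) where
  toFun v := fun j => if j = i + 1 then v (i + 1) + v i + v (i + 2) else v j
  invFun v := fun j => if j = i + 1 then v (i + 1) - v i - v (i + 2) else v j
  left_inv v := by
    funext j
    by_cases hj : j = i + 1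
    · subst hj; simp; ring
    · simp [hj]
  right_inv v := by
    funext j
    by_cases hj : j = i + 1
    · subst hj; simp; ring
    · simp [hj]

theorem T_apply (i : ℕ) (v : ℕ → ℤ) (j : ℕ) :
    T i v j = if j = i + 1 then v (i + 1) + v i + v (i + 2) else v j := rfl

theorem T_inv_apply (i : ℕ) (v : ℕ → ℤ) (j : ℕ) :
    (T i)⁻¹ v j = if j = i + 1 then v (i + 1) - v i - v (i + 2) else v j := rfl

/-- the image of the generator `i` -/
def R (i : ℕ) : Equiv.Perm (ℕ → ℤ) := if i % 2 = 0 then T i else (T i)⁻¹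

theorem T_comm (i j : ℕ) (h : i + 2 ≤ j) : Commute (T i) (T j) := by
  refine Equiv.ext fun v => ?_
  funext k
  simp only [Equiv.Perm.mul_apply, T_apply]
  have h1 : ¬ (i + 1 = j + 1) := by omega
  have h2 : ¬ (i = j + 1) := by omega
  have h3 : ¬ (i + 2 = j + 1) := by omega
  have h4 : ¬ (j + 1 = i + 1) := by omega
  have h5 : ¬ (j = i + 1) := by omega
  have h6 : ¬ (j + 2 = i + 1) := by omega
  simp only [h1, h2, h3, h4, h5, h6, if_false]
  split_ifs with h7 h8 <;> first | rfl | omega

theorem T_braid (i : ℕ) : T i * (T (i + 1))⁻¹ * T i = (T (i + 1))⁻¹ * T i * (T (i + 1))⁻¹ := by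
  refine Equiv.ext fun v => ?_
  funext k
  simp only [Equiv.Perm.mul_apply, T_apply, T_inv_apply]
  have a1 : (i + 1 = i + 1 + 1) = False := by simp
  have a2 : (i + 1 + 1 = i + 1) = False := by simp
  have a3 : (i + 2 = i + 1 + 1) = True := by simp
  have a4 : (i + 1 + 2 = i + 1) = False := by simp
  have a5 : (i = i + 1 + 1) = False := by simp; omega
  have a6 : (i = i + 1) = False := by simp
  have a7 : (i + 2 = i + 1) = False := by simp
  have a8 : (i + 1 + 2 = i + 1 + 1) = False := by simp
  by_cases h1 : k = i + 1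
  · rw [h1]
    simp only [a1, a2, a3, a4, a5, a6, a7, a8, if_true, if_false]
    rw [show i + 1 + 1 = i + 2 from rfl]
    ring
  · by_cases h2 : k = i + 1 + 1
    · rw [h2]
      simp only [a1, a2, a3, a4, a5, a6, a7, a8, if_true, if_false]
      rw [show i + 1 + 1 = i + 2 from rfl]
      ring
    · simp only [h1, h2, if_false]

theorem T_braid' (i : ℕ) : (T i)⁻¹ * T (i + 1) * (T i)⁻¹ = T (i + 1) * (T i)⁻¹ * T (i + 1) := by
  have h := congrArg (·⁻¹) (T_braid i)
  simp only [mul_inv_rev, inv_inv] at h
  rw [mul_assoc, mul_assoc]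
  exact h

theorem R_braid (i : ℕ) : R i * R (i + 1) * R i = R (i + 1) * R i * R (i + 1) := by
  unfold R
  rcases Nat.mod_two_eq_zero_or_one i with h | h
  · rw [if_pos h, if_neg (by omega)]
    exact T_braid i
  · rw [if_neg (by omega), if_pos (by omega)]
    exact T_braid' i

theorem R_comm (i j : ℕ) (h : i + 2 ≤ j) : R i * R j = R j * R i := by
  have hc := T_comm i j h
  unfold R
  split_ifs
  · exact hc
  · exact hc.inv_right
  · exact hc.inv_left
  · exact hc.inv_left.inv_right

/-- the representation -/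
def rep (n : ℕ) : B n →* Equiv.Perm (ℕ → ℤ) :=
  PresentedGroup.toGroup (f := fun i : Fin (n - 1) => R i.1) (by
    rintro r (⟨i, j, hij, rfl⟩ | ⟨i, j, hij, rfl⟩)
    · simp only [map_mul, map_inv, FreeGroup.lift_apply_of, mul_inv_eq_one]
      rw [← hij]
      exact R_braid i.1
    · simp only [map_mul, map_inv, FreeGroup.lift_apply_of, mul_inv_eq_one]
      exact R_comm i.1 j.1 hij)

theorem rep_sigma (n : ℕ) (i : Fin (n - 1)) : rep n (sigma n i) = R i.1 :=
  PresentedGroup.toGroup.of _

/-- the alternating letter -/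
def alt (n : ℕ) (i : Fin (n - 1)) : Fin (n - 1) × Bool := (i, decide (i.1 % 2 = 0))

theorem rep_alt (n : ℕ) (i : Fin (n - 1)) : rep n (letter n (alt n i)) = T i.1 := by
  unfold letter alt
  by_cases h : i.1 % 2 = 0
  · simp only [h, decide_true, if_true]
    rw [rep_sigma, R, if_pos h]
  · simp only [h, decide_false, Bool.false_eq_true, if_false]
    rw [map_inv, rep_sigma, R, if_neg h, inv_inv]

/-- value of a word in the alternating generators on the all-one vector -/
def val : List ℕ → ℕ → ℤ
  | [] => fun _ => 1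
  | x :: l => T x (val l)

theorem val_pos : ∀ (l : List ℕ) (j : ℕ), 0 < val l j
  | [], j => by simp [val]
  | x :: l, j => by
    rw [val, T_apply]
    have h1 := val_pos l (x + 1)
    have h2 := val_pos l x
    have h3 := val_pos l (x + 2)
    split_ifs
    · omega
    · exact val_pos l j

/-- descents -/
def Dsc (v : ℕ → ℤ) (j : ℕ) : Prop := v j + v (j + 2) < v (j + 1)

theorem dsc_head (x : ℕ) (l : List ℕ) : Dsc (val (x :: l)) x := by
  unfold Dsc
  rw [val, T_apply, T_apply, T_apply]
  have h1 := val_pos l (x + 1)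
  rw [if_neg (by omega), if_neg (by omega), if_pos rfl]
  omega

theorem dsc_far (x : ℕ) (v : ℕ → ℤ) (j : ℕ) (h : j + 2 ≤ x) : Dsc (T x v) j ↔ Dsc v j := by
  unfold Dsc
  rw [T_apply, T_apply, T_apply, if_neg (by omega), if_neg (by omega), if_neg (by omega)]

theorem dsc_near (j : ℕ) (l : List ℕ) : ¬ Dsc (val ((j + 1) :: l)) j := by
  unfold Dsc
  rw [val, T_apply, T_apply, T_apply]
  have h1 := val_pos l (j + 1)
  have h2 := val_pos l (j + 1 + 1)
  have h3 := val_pos l (j + 1 + 2)
  have h4 := val_pos l j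
  rw [if_neg (by omega), if_pos (by omega), if_neg (by omega)]
  omega

/-- normal forms -/
def NF : List ℕ → Prop
  | [] => True
  | [_] => True
  | x :: y :: l => x ≤ y + 1 ∧ NF (y :: l)

theorem NF_min : ∀ (l : List ℕ) (x : ℕ), NF (x :: l) → ∀ j, j < x → ¬ Dsc (val (x :: l)) j
  | [], x, _, j, hj => by
    by_cases h : j + 1 = x
    · subst h; exact dsc_near j []
    · rw [val, dsc_far x _ j (by omega)]
      unfold Dsc; simp [val]
  | y :: l, x, h, j, hj => by
    by_cases h1 : j + 1 = x
    · subst h1; exact dsc_near j _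
    · rw [val, dsc_far x _ j (by omega)]
      have h2 := h.1
      exact NF_min l y h.2 j (by omega)

theorem NF_tail (x : ℕ) (l : List ℕ) (h : NF (x :: l)) : NF l := by
  cases l with
  | nil => trivial
  | cons y l => exact h.2

theorem NF_inj : ∀ (l l' : List ℕ), NF l → NF l' → val l = val l' → l = l'
  | [], [], _, _, _ => rfl
  | [], x :: l, _, _, h => by
    exfalso
    have := dsc_head x l
    rw [← h] at this
    unfold Dsc at this; simp [val] at this
  | x :: l, [], _, _, h => by
    exfalso
    have := dsc_head x l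
    rw [h] at this
    unfold Dsc at this; simp [val] at this
  | x :: l, x' :: l', h1, h2, h => by
    have hx : x = x' := by
      rcases lt_trichotomy x x' with hlt | heq | hgt
      · exfalso
        have := dsc_head x l
        rw [h] at this
        exact NF_min l' x' h2 x hlt this
      · exact heq
      · exfalso
        have := dsc_head x' l'
        rw [← h] at this
        exact NF_min l x h1 x' hgt this
    subst hx
    have h3 : val l = val l' := (T x).injective h
    rw [NF_inj l l' (NF_tail _ _ h1) (NF_tail _ _ h2) h3]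

/-- the finite set of normal forms of length `k + 1` over `{0, …, N - 1}`, as pairs
(head, tail) -/
def NS (N : ℕ) : ℕ → Finset (ℕ × List ℕ)
  | 0 => (range N).image (fun x => (x, []))
  | k + 1 => ((NS N k ×ˢ range N).filter (fun p => p.2 ≤ p.1.1 + 1)).image
      (fun p => (p.2, p.1.1 :: p.1.2))

theorem NS_prop (N : ℕ) : ∀ (k : ℕ) (p : ℕ × List ℕ), p ∈ NS N k →
    p.2.length = k ∧ NF (p.1 :: p.2) ∧ ∀ y ∈ p.1 :: p.2, y < N
  | 0, p, h => by
    rw [NS, Finset.mem_image] at h
    obtain ⟨x, hx, rfl⟩ := h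
    refine ⟨rfl, trivial, ?_⟩
    intro y hy
    simp only [List.mem_singleton] at hy
    subst hy
    exact Finset.mem_range.1 hx
  | k + 1, p, h => by
    rw [NS, Finset.mem_image] at h
    obtain ⟨⟨q, x⟩, hq, rfl⟩ := h
    rw [Finset.mem_filter, Finset.mem_product] at hq
    obtain ⟨⟨h1, h2⟩, h3⟩ := hq
    obtain ⟨h4, h5, h6⟩ := NS_prop N k q h1
    refine ⟨by simp [h4], ⟨h3, h5⟩, ?_⟩
    intro y hy
    rw [List.mem_cons] at hy
    rcases hy with rfl | hy
    · exact Finset.mem_range.1 h2
    · exact h6 y hy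

/-- the number of normal forms is a lower bound for the growth function -/
theorem NS_le_beta (n k : ℕ) (hn : 2 ≤ n) : (NS (n - 1) k).card ≤ beta n (k + 1) := by
  classical
  have hN : 0 < n - 1 := by omega
  set al : ℕ → Fin (n - 1) := fun x => if h : x < n - 1 then ⟨x, h⟩ else ⟨0, hN⟩ with hal
  set F : ℕ × List ℕ → B n := fun p =>
    (((p.1 :: p.2).map fun x => alt n (al x)).map (letter n)).prod with hF
  have hval : ∀ l : List ℕ, (∀ y ∈ l, y < n - 1) →
      rep n (((l.map fun x => alt n (al x)).map (letter n)).prod) (fun _ => 1) = val l := by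
    intro l
    induction l with
    | nil => intro _; simp [val]
    | cons x l ih =>
      intro h
      rw [List.map_cons, List.map_cons, List.prod_cons, map_mul, Equiv.Perm.mul_apply,
        ih fun y hy => h y (List.mem_cons_of_mem _ hy), rep_alt, val]
      have hx : (al x).1 = x := by
        rw [hal]; simp only [dif_pos (h x List.mem_cons_self)]
      rw [hx]
  have hinj : Set.InjOn F (NS (n - 1) k) := by
    intro p hp q hq hpq
    obtain ⟨h1, h2, h3⟩ := NS_prop _ _ p hp
    obtain ⟨h4, h5, h6⟩ := NS_prop _ _ q hq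
    have h7 : val (p.1 :: p.2) = val (q.1 :: q.2) := by
      rw [← hval _ h3, ← hval _ h6]
      exact congrArg (fun g => rep n g (fun _ => 1)) hpq
    have h8 := NF_inj _ _ h2 h5 h7
    rw [List.cons.injEq] at h8
    exact Prod.ext h8.1 h8.2
  have hsub : F '' (NS (n - 1) k) ⊆ ball n (k + 1) := by
    rintro _ ⟨p, hp, rfl⟩
    obtain ⟨h1, h2, h3⟩ := NS_prop _ _ p hp
    exact ⟨_, by simp [h1], rfl⟩
  calc (NS (n - 1) k).card = (F '' (NS (n - 1) k : Set (ℕ × List ℕ))).ncard := by
        rw [Set.InjOn.ncard_image hinj, Set.ncard_coe_finset]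
    _ ≤ beta n (k + 1) := Set.ncard_le_ncard hsub (ball_finite n (k + 1) hn)

end Pool.Agent.H966R3.BG
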