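import Pool.Agent.H966R3.BG.Low

set_option autoImplicit false

namespace Pool.Agent.H966R3.BG

open Finset Filter Topology

/-- the cumulative eigenvector -/
noncomputable def H (θ : ℝ) (m : ℕ) : ℝ := (2 * Real.cos θ) ^ m * Real.sin (m * θ)

noncomputable def gg (θ : ℝ) (m : ℕ) : ℝ := H θ (m + 1) - H θ m

theorem H_zero (θ : ℝ) : H θ 0 = 0 := by simp [H]

theorem H_rec (θ : ℝ) (m : ℕ) : H θ (m + 2) = (2 * Real.cos θ) ^ 2 * gg θ m := by
  unfold gg H
  have h : Real.sin (((m + 2 : ℕ) : ℝ) * θ) =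
      2 * Real.cos θ * Real.sin (((m + 1 : ℕ) : ℝ) * θ) - Real.sin ((m : ℝ) * θ) := by
    have e1 : (((m + 2 : ℕ) : ℝ)) * θ = ((m + 1 : ℕ) : ℝ) * θ + θ := by push_cast; ring
    have e2 : (m : ℝ) * θ = ((m + 1 : ℕ) : ℝ) * θ - θ := by push_cast; ring
    rw [e1, e2, Real.sin_add, Real.sin_sub]
    ring
  rw [h]
  ring

theorem gg_sum (θ : ℝ) (m : ℕ) : ∑ x ∈ range m, gg θ x = H θ m := by
  unfold gg
  rw [Finset.sum_range_sub, H_zero, sub_zero]

theorem H_top (N : ℕ) : H (Real.pi / (N + 2)) (N + 1) = H (Real.pi / (N + 2)) N := by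
  set θ := Real.pi / (N + 2) with hθ
  unfold H
  have h0 : Real.sin (((N : ℝ) + 2) * θ) = 0 := by
    rw [hθ, mul_div_cancel₀ _ (by positivity), Real.sin_pi]
  have h : Real.sin ((N : ℝ) * θ) = 2 * Real.cos θ * Real.sin (((N + 1 : ℕ) : ℝ) * θ) := by
    have e1 : ((N : ℝ) + 2) * θ = ((N + 1 : ℕ) : ℝ) * θ + θ := by push_cast; ring
    have e2 : (N : ℝ) * θ = ((N + 1 : ℕ) : ℝ) * θ - θ := by push_cast; ring
    rw [e1, Real.sin_add] at h0
    rw [e2, Real.sin_sub]
    linarith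
  rw [h]
  ring

/-- total weight -/
noncomputable def Psi (N k : ℕ) : ℝ := ∑ p ∈ NS N k, gg (Real.pi / (N + 2)) p.1

theorem Psi_succ (N k : ℕ) :
    Psi N (k + 1) = (2 * Real.cos (Real.pi / (N + 2))) ^ 2 * Psi N k := by
  unfold Psi
  rw [NS, Finset.sum_image, Finset.sum_filter, Finset.sum_product, Finset.mul_sum]
  · refine Finset.sum_congr rfl fun p hp => ?_
    have hpN : p.1 < N := (NS_prop N k p hp).2.2 p.1 List.mem_cons_self
    rw [← Finset.sum_filter]
    by_cases h : p.1 + 1 < N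
    · have : (range N).filter (fun x => x ≤ p.1 + 1) = range (p.1 + 2) := by
        ext x
        rw [Finset.mem_filter, Finset.mem_range, Finset.mem_range]
        omega
      rw [this, gg_sum, H_rec]
    · have : (range N).filter (fun x => x ≤ p.1 + 1) = range N := by
        ext x
        rw [Finset.mem_filter, Finset.mem_range]
        omega
      rw [this, gg_sum, ← H_rec]
      have h2 : p.1 + 1 = N := by omega
      rw [show p.1 + 2 = N + 1 by omega, H_top]
  · rintro ⟨⟨a, b⟩, c⟩ _ ⟨⟨a', b'⟩, c'⟩ _ h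
    simp only [Prod.mk.injEq, List.cons.injEq] at h
    obtain ⟨h1, h2, h3⟩ := h
    subst h1 h2 h3
    rfl

theorem Psi_eq (N k : ℕ) : Psi N k =
    ((2 * Real.cos (Real.pi / (N + 2))) ^ 2) ^ k * H (Real.pi / (N + 2)) N := by
  induction k with
  | zero =>
    rw [pow_zero, one_mul, ← gg_sum, Psi, NS, Finset.sum_image]
    intro a _ b _ h
    simpa using h
  | succ k ih => rw [Psi_succ, ih, pow_succ]; ring

theorem cos_pos_aux (N : ℕ) (hN : 1 ≤ N) : 0 < Real.cos (Real.pi / (N + 2)) := by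
  have hN' : (1 : ℝ) ≤ N := by exact_mod_cast hN
  apply Real.cos_pos_of_mem_Ioo
  constructor
  · have : 0 < Real.pi / (N + 2) := by positivity
    linarith [Real.pi_pos]
  · apply div_lt_div_of_pos_left Real.pi_pos (by norm_num) (by linarith)

theorem H_pos (N : ℕ) (hN : 1 ≤ N) : 0 < H (Real.pi / (N + 2)) N := by
  unfold H
  have h1 := cos_pos_aux N hN
  have hN' : (1 : ℝ) ≤ N := by exact_mod_cast hN
  have h2 : 0 < Real.sin ((N : ℝ) * (Real.pi / (N + 2))) := by
    apply Real.sin_pos_of_pos_of_lt_pi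
    · positivity
    · rw [mul_div_assoc', div_lt_iff₀ (by positivity)]
      nlinarith [Real.pi_pos]
  positivity

theorem NS_card (N : ℕ) (hN : 1 ≤ N) : ∃ c : ℝ, 0 < c ∧ ∀ k : ℕ,
    c * ((2 * Real.cos (Real.pi / (N + 2))) ^ 2) ^ k ≤ ((NS N k).card : ℝ) := by
  set θ := Real.pi / ((N : ℝ) + 2) with hθ
  set C : ℝ := ∑ x ∈ range N, |gg θ x| with hC
  have hH : 0 < H θ N := H_pos N hN
  have hCpos : 0 < C := by
    refine lt_of_lt_of_le hH ?_
    rw [← gg_sum, hC]
    exact Finset.sum_le_sum fun x _ => le_abs_self _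
  refine ⟨H θ N / C, by positivity, fun k => ?_⟩
  have h1 : Psi N k ≤ ((NS N k).card : ℝ) * C := by
    unfold Psi
    rw [← nsmul_eq_mul]
    refine Finset.sum_le_card_nsmul _ _ _ fun p hp => ?_
    have hpN : p.1 < N := (NS_prop N k p hp).2.2 p.1 List.mem_cons_self
    refine (le_abs_self _).trans ?_
    rw [hC]
    exact Finset.single_le_sum (f := fun x => |gg θ x|) (fun x _ => abs_nonneg _)
      (Finset.mem_range.2 hpN)
  rw [Psi_eq, ← hθ] at h1
  rw [div_mul_eq_mul_div, div_le_iff₀ hCpos]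
  linarith

theorem beta_lower (n : ℕ) (hn : 2 ≤ n) : ∃ c : ℝ, 0 < c ∧ ∀ k : ℕ,
    c * ((4 * Real.cos (Real.pi / (n + 1)) ^ 2)) ^ k ≤ (beta n k : ℝ) := by
  obtain ⟨c, hc, h⟩ := NS_card (n - 1) (by omega)
  have hcos := cos_pos_aux (n - 1) (by omega)
  have hcast : (((n - 1 : ℕ) : ℝ)) + 2 = n + 1 := by
    rw [Nat.cast_sub (by omega)]; push_cast; ring
  rw [hcast] at h hcos
  have hlam : (2 * Real.cos (Real.pi / ((n : ℝ) + 1))) ^ 2 =
      4 * Real.cos (Real.pi / (n + 1)) ^ 2 := by ring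
  rw [hlam] at h
  set lam : ℝ := 4 * Real.cos (Real.pi / (n + 1)) ^ 2 with hl
  have hlpos : 0 < lam := by positivity
  refine ⟨min 1 (c / lam), by positivity, fun k => ?_⟩
  cases k with
  | zero =>
    rw [pow_zero, mul_one]
    have : (1 : ℝ) ≤ beta n 0 := by exact_mod_cast beta_pos n 0 hn
    exact (min_le_left _ _).trans this
  | succ k =>
    have h1 : ((NS (n - 1) k).card : ℝ) ≤ beta n (k + 1) := by exact_mod_cast NS_le_beta n k hn
    refine le_trans ?_ ((h k).trans h1)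
    calc min 1 (c / lam) * lam ^ (k + 1) ≤ (c / lam) * lam ^ (k + 1) :=
          mul_le_mul_of_nonneg_right (min_le_right _ _) (by positivity)
      _ = c * lam ^ k := by rw [pow_succ]; field_simp

theorem growth2 (n : ℕ) (hn : 2 ≤ n) : ∃ w : ℝ,
    Tendsto (fun k : ℕ => (beta n k : ℝ) ^ (1 / (k : ℝ))) atTop (𝓝 w) ∧
    4 * Real.cos (Real.pi / (n + 1)) ^ 2 ≤ w ∧ w ≤ 152 / 25 := by
  obtain ⟨w, hw, hw2⟩ := growth n hn
  refine ⟨w, hw, ?_, hw2⟩
  obtain ⟨c, hc, hb⟩ := beta_lower n hn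
  set lam : ℝ := 4 * Real.cos (Real.pi / (n + 1)) ^ 2 with hl
  have hlpos : 0 < lam := by
    have hcos := cos_pos_aux (n - 1) (by omega)
    have hcast : (((n - 1 : ℕ) : ℝ)) + 2 = n + 1 := by
      rw [Nat.cast_sub (by omega)]; push_cast; ring
    rw [hcast] at hcos
    positivity
  have h2 : Tendsto (fun k : ℕ => Real.exp (Real.log c / k + Real.log lam)) atTop
      (𝓝 (Real.exp (0 + Real.log lam))) :=
    (Real.continuous_exp.tendsto _).comp
      ((tendsto_const_div_atTop_nhds_zero_nat _).add_const _)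
  rw [zero_add, Real.exp_log hlpos] at h2
  refine le_of_tendsto_of_tendsto h2 hw ?_
  filter_upwards [eventually_gt_atTop 0] with k hk
  have hk' : (0 : ℝ) < k := by exact_mod_cast hk
  have hpos : (0 : ℝ) < beta n k := by exact_mod_cast beta_pos n k hn
  rw [Real.rpow_def_of_pos hpos]
  apply Real.exp_le_exp.2
  have h3 := Real.log_le_log (by positivity) (hb k)
  rw [Real.log_mul hc.ne' (by positivity), Real.log_pow] at h3
  rw [div_add' _ _ _ hk'.ne', mul_one_div]
  apply div_le_div_of_nonneg_right _ hk'.le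
  linarith

end Pool.Agent.H966R3.BG
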