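import Pool.Agent.H966R3.BG.Low2

set_option autoImplicit false

/-! Adding a strand: `B_n → B_{n+1}` is injective (by forgetting the last strand), so the growth
functions are monotone in `n`. -/

namespace Pool.Agent.H966R3.BG

open Finset Filter Topology

section
variable {G : Type*} [Group G]

/-- tracking a marked strand (at position `p ≤ n`) and the braid of the other strands -/
def Fw (n : ℕ) (s : ℕ → G) (i : ℕ) (q : ℕ × G) : ℕ × G :=
  if n < q.1 then q
  else if q.1 = i then (i + 1, q.2)
  else if q.1 = i + 1 then (i, q.2)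
  else if i + 1 < q.1 then (q.1, s i * q.2)
  else (q.1, s (i - 1) * q.2)

theorem Fw_big (n : ℕ) (s : ℕ → G) (i p : ℕ) (b : G) (h : n < p) : Fw n s i (p, b) = (p, b) := by
  rw [Fw, if_pos h]

theorem Fw_left (n : ℕ) (s : ℕ → G) (i : ℕ) (b : G) (h : i < n) :
    Fw n s i (i, b) = (i + 1, b) := by
  rw [Fw, if_neg (by simp only; omega), if_pos rfl]

theorem Fw_right (n : ℕ) (s : ℕ → G) (i p : ℕ) (b : G) (h : i < n) (hp : p = i + 1) :
    Fw n s i (p, b) = (i, b) := by
  rw [Fw, if_neg (by simp only; omega), if_neg (by simp only; omega), if_pos (by simp only; omega)]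

theorem Fw_above (n : ℕ) (s : ℕ → G) (i p : ℕ) (b : G) (h : p ≤ n) (hp : i + 1 < p) :
    Fw n s i (p, b) = (p, s i * b) := by
  rw [Fw, if_neg (by simp only; omega), if_neg (by simp only; omega), if_neg (by simp only; omega),
    if_pos (by simp only; omega)]

theorem Fw_below (n : ℕ) (s : ℕ → G) (i p : ℕ) (b : G) (h : p ≤ n) (hp : p < i) :
    Fw n s i (p, b) = (p, s (i - 1) * b) := by
  rw [Fw, if_neg (by simp only; omega), if_neg (by simp only; omega), if_neg (by simp only; omega),
    if_neg (by simp only; omega)]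

theorem Fw_inv (n : ℕ) (s : ℕ → G) (i : ℕ) (h : i < n) (q : ℕ × G) :
    Fw n s i (Fw n (fun j => (s j)⁻¹) i q) = q := by
  obtain ⟨p, b⟩ := q
  by_cases h1 : n < p
  · rw [Fw_big _ _ _ _ _ h1, Fw_big _ _ _ _ _ h1]
  · push Not at h1
    rcases lt_trichotomy p i with h2 | h2 | h2
    · rw [Fw_below _ _ _ _ _ h1 h2, Fw_below _ _ _ _ _ h1 h2]
      simp
    · subst h2
      rw [Fw_left _ _ _ _ h, Fw_right _ _ _ _ _ h rfl]
    · by_cases h3 : p = i + 1
      · rw [Fw_right _ _ _ _ _ h h3, Fw_left _ _ _ _ h, h3]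
      · rw [Fw_above _ _ _ _ _ h1 (by omega), Fw_above _ _ _ _ _ h1 (by omega)]
        simp

/-- the permutation -/
def Fp (n : ℕ) (s : ℕ → G) (i : ℕ) (h : i < n) : Equiv.Perm (ℕ × G) where
  toFun := Fw n s i
  invFun := Fw n (fun j => (s j)⁻¹) i
  left_inv q := by
    have := Fw_inv n (fun j => (s j)⁻¹) i h q
    simpa using this
  right_inv q := Fw_inv n s i h q

theorem Fp_braid (n : ℕ) (s : ℕ → G)
    (hs : ∀ i, i + 1 < n - 1 → s i * s (i + 1) * s i = s (i + 1) * s i * s (i + 1))
    (i : ℕ) (h : i + 1 < n) :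
    Fp n s i (by omega) * Fp n s (i + 1) h * Fp n s i (by omega) =
      Fp n s (i + 1) h * Fp n s i (by omega) * Fp n s (i + 1) h := by
  refine Equiv.ext fun q => ?_
  obtain ⟨p, b⟩ := q
  change Fw n s i (Fw n s (i + 1) (Fw n s i (p, b))) =
    Fw n s (i + 1) (Fw n s i (Fw n s (i + 1) (p, b)))
  by_cases h1 : n < p
  · simp only [Fw_big _ _ _ _ _ h1]
  · push Not at h1
    rcases lt_trichotomy p i with h2 | h2 | h2
    · rw [Fw_below n s i p _ h1 h2, Fw_below n s (i + 1) p _ h1 (by omega),
        Fw_below n s i p _ h1 h2, Fw_below n s (i + 1) p _ h1 (by omega),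
        Fw_below n s i p _ h1 h2, Fw_below n s (i + 1) p _ h1 (by omega)]
      have := hs (i - 1) (by omega)
      rw [show i - 1 + 1 = i by omega] at this
      rw [show i + 1 - 1 = i by omega, ← mul_assoc, ← mul_assoc, ← mul_assoc, ← mul_assoc, this]
    · subst h2
      rw [Fw_left n s p _ (by omega), Fw_left n s (p + 1) _ h,
        Fw_above n s p _ _ (by omega) (by omega), Fw_below n s (p + 1) p _ h1 (by omega),
        Fw_left n s p _ (by omega), Fw_left n s (p + 1) _ h]
      simp
    · by_cases h3 : p = i + 1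
      · rw [Fw_right n s i p _ (by omega) h3, Fw_below n s (i + 1) i _ (by omega) (by omega),
          Fw_left n s i _ (by omega), h3, Fw_left n s (i + 1) _ h,
          Fw_above n s i _ _ (by omega) (by omega), Fw_right n s (i + 1) _ _ h rfl]
        simp
      · by_cases h4 : p = i + 2
        · rw [Fw_above n s i p _ h1 (by omega), Fw_right n s (i + 1) p _ h h4,
            Fw_right n s i _ _ (by omega) rfl, Fw_right n s (i + 1) p _ h h4,
            Fw_right n s i _ _ (by omega) rfl, Fw_below n s (i + 1) i _ (by omega) (by omega)]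
          simp
        · rw [Fw_above n s i p _ h1 (by omega), Fw_above n s (i + 1) p _ h1 (by omega),
            Fw_above n s i p _ h1 (by omega), Fw_above n s (i + 1) p _ h1 (by omega),
            Fw_above n s i p _ h1 (by omega), Fw_above n s (i + 1) p _ h1 (by omega)]
          rw [← mul_assoc, ← mul_assoc, ← mul_assoc, ← mul_assoc, hs i (by omega)]

theorem Fp_comm (n : ℕ) (s : ℕ → G)
    (hs : ∀ i j, i + 2 ≤ j → j < n - 1 → s i * s j = s j * s i)
    (i j : ℕ) (hij : i + 2 ≤ j) (h : j < n) :
    Fp n s i (by omega) * Fp n s j h = Fp n s j h * Fp n s i (by omega) := by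
  refine Equiv.ext fun q => ?_
  obtain ⟨p, b⟩ := q
  change Fw n s i (Fw n s j (p, b)) = Fw n s j (Fw n s i (p, b))
  by_cases h1 : n < p
  · simp only [Fw_big _ _ _ _ _ h1]
  · push Not at h1
    rcases lt_trichotomy p i with h2 | h2 | h2
    · rw [Fw_below n s j p _ h1 (by omega), Fw_below n s i p _ h1 (by omega),
        Fw_below n s i p _ h1 (by omega), Fw_below n s j p _ h1 (by omega), ← mul_assoc,
        ← mul_assoc, hs (i - 1) (j - 1) (by omega) (by omega)]
    · subst h2
      rw [Fw_below n s j p _ h1 (by omega), Fw_left n s p _ (by omega), Fw_left n s p _ (by omega),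
        Fw_below n s j (p + 1) _ (by omega) (by omega)]
    · by_cases h3 : p = i + 1
      · rw [Fw_below n s j p _ h1 (by omega), Fw_right n s i p _ (by omega) h3,
          Fw_right n s i p _ (by omega) h3, Fw_below n s j i _ (by omega) (by omega)]
      · rcases lt_trichotomy p j with h4 | h4 | h4
        · rw [Fw_below n s j p _ h1 h4, Fw_above n s i p _ h1 (by omega),
            Fw_above n s i p _ h1 (by omega), Fw_below n s j p _ h1 h4, ← mul_assoc, ← mul_assoc,
            hs i (j - 1) (by omega) (by omega)]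
        · subst h4
          rw [Fw_left n s p _ h, Fw_above n s i (p + 1) _ (by omega) (by omega),
            Fw_above n s i p _ h1 (by omega), Fw_left n s p _ h]
        · by_cases h5 : p = j + 1
          · rw [Fw_right n s j p _ h h5, Fw_above n s i j _ (by omega) (by omega),
              Fw_above n s i p _ h1 (by omega), Fw_right n s j p _ h h5]
          · rw [Fw_above n s j p _ h1 (by omega), Fw_above n s i p _ h1 (by omega),
              Fw_above n s i p _ h1 (by omega), Fw_above n s j p _ h1 (by omega), ← mul_assoc,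
              ← mul_assoc, hs i j hij (by omega)]

end

/-- `B_{n+1}` acting on positions and braids of the remaining strands -/
def psi (n : ℕ) : B (n + 1) →* Equiv.Perm (ℕ × B n) :=
  PresentedGroup.toGroup (f := fun i : Fin (n + 1 - 1) => Fp n (sg n) i.1 i.2) (by
    rintro r (⟨i, j, hij, rfl⟩ | ⟨i, j, hij, rfl⟩)
    · simp only [map_mul, map_inv, FreeGroup.lift_apply_of, mul_inv_eq_one]
      obtain ⟨j, hj⟩ := j
      simp only at hij
      subst hij
      exact Fp_braid n (sg n) (fun i hi => (sg_BR n).braid i hi) i.1 hj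
    · simp only [map_mul, map_inv, FreeGroup.lift_apply_of, mul_inv_eq_one]
      exact Fp_comm n (sg n) (fun i j h1 h2 => (sg_BR n).comm i j h1 h2) i.1 j.1 hij j.2)

theorem psi_sigma (n : ℕ) (i : Fin (n + 1 - 1)) :
    psi n (sigma (n + 1) i) = Fp n (sg n) i.1 i.2 :=
  PresentedGroup.toGroup.of _

/-- adding a strand on the right, for letters -/
def up (n : ℕ) (x : Fin (n - 1) × Bool) : Fin (n + 1 - 1) × Bool := (⟨x.1.1, by omega⟩, x.2)

theorem psi_up (n : ℕ) (x : Fin (n - 1) × Bool) (b : B n) :
    psi n (letter (n + 1) (up n x)) (n, b) = (n, letter n x * b) := by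
  obtain ⟨⟨i, hi⟩, c⟩ := x
  have hsg : sg n i = sigma n ⟨i, hi⟩ := by rw [sg, dif_pos hi]
  cases c
  · have h1 : letter (n + 1) (up n (⟨i, hi⟩, false)) = (sigma (n + 1) ⟨i, by omega⟩)⁻¹ := rfl
    have h2 : letter n (⟨i, hi⟩, false) = (sigma n ⟨i, hi⟩)⁻¹ := rfl
    rw [h1, h2, map_inv, psi_sigma]
    change Fw n (fun j => (sg n j)⁻¹) i (n, b) = _
    rw [Fw_above n _ i n b le_rfl (by omega), hsg]
  · have h1 : letter (n + 1) (up n (⟨i, hi⟩, true)) = sigma (n + 1) ⟨i, by omega⟩ := rfl
    have h2 : letter n (⟨i, hi⟩, true) = sigma n ⟨i, hi⟩ := rfl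
    rw [h1, h2, psi_sigma]
    change Fw n (sg n) i (n, b) = _
    rw [Fw_above n _ i n b le_rfl (by omega), hsg]

theorem psi_word (n : ℕ) (w : List (Fin (n - 1) × Bool)) :
    psi n (((w.map (up n)).map (letter (n + 1))).prod) (n, 1) = (n, (w.map (letter n)).prod) := by
  induction w with
  | nil => simp
  | cons x w ih =>
    rw [List.map_cons, List.map_cons, List.prod_cons, map_mul, Equiv.Perm.mul_apply, ih, psi_up,
      List.map_cons, List.prod_cons]

theorem beta_mono (n k : ℕ) (hn : 2 ≤ n) : beta n k ≤ beta (n + 1) k := by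
  classical
  have hch : ∀ g : B n, g ∈ ball n k → ∃ w : List (Fin (n - 1) × Bool), w.length ≤ k ∧
      (w.map (letter n)).prod = g := fun g hg => hg
  choose! wd hwd using hch
  refine Set.ncard_le_ncard_of_injOn
    (fun g => (((wd g).map (up n)).map (letter (n + 1))).prod) ?_ ?_
    (ball_finite (n + 1) k (by omega))
  · intro g hg
    exact ⟨(wd g).map (up n), by rw [List.length_map]; exact (hwd g hg).1, rfl⟩
  · intro g hg g' hg' h
    have h1 := psi_word n (wd g)
    have h2 := psi_word n (wd g')
    simp only at h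
    rw [h, h2, (hwd g hg).2, (hwd g' hg').2] at h1
    exact (congrArg Prod.snd h1).symm

end Pool.Agent.H966R3.BG
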